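import Mathlib
import Pool.Agent.Y745.SW.DefsA
import Pool.Agent.H370R2.MV
import Pool.Agent.Helper256.KM.Mertens

set_option autoImplicit false

/-! SW project, jobs BV and DX: small primes in short intervals, change of the number of primes. -/

namespace Pool.Agent.Y895.SW

open Filter Topology MeasureTheory Complex

/-- Dirichlet polynomial on the line -/
noncomputable def D (b : ℕ → ℂ) (X : ℕ) (t : ℝ) : ℂ :=
  ∑ n ∈ Finset.Icc 1 X, b n * (n : ℂ) ^ (-(t : ℂ) * I)

/-- coefficients of the derivative -/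
noncomputable def db (b : ℕ → ℂ) (n : ℕ) : ℂ := b n * (Complex.log n * (-I))

lemma D_hasDerivAt (b : ℕ → ℂ) (X : ℕ) (t : ℝ) : HasDerivAt (D b X) (D (db b) X t) t := by
  unfold D
  have h : ∀ n ∈ Finset.Icc 1 X, HasDerivAt (fun t : ℝ => b n * (n : ℂ) ^ (-(t : ℂ) * I))
      (db b n * (n : ℂ) ^ (-(t : ℂ) * I)) t := by
    intro n hn
    rw [Finset.mem_Icc] at hn
    have hn0 : (n : ℂ) ≠ 0 := by
      have : n ≠ 0 := by omega
      exact_mod_cast this
    have h1 : HasDerivAt (fun z : ℂ => -z * I) (-I) (t : ℂ) := by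
      have := ((hasDerivAt_id (t : ℂ)).neg).mul_const I
      simpa using this
    have h2 := (h1.const_cpow (c := (n : ℂ)) (Or.inl hn0)).comp_ofReal
    have h3 := h2.const_mul (b n)
    have e : b n * ((n : ℂ) ^ (-(t : ℂ) * I) * Complex.log n * (-I)) =
        db b n * (n : ℂ) ^ (-(t : ℂ) * I) := by
      unfold db; ring
    rw [e] at h3
    exact h3
  exact HasDerivAt.fun_sum h

lemma D_cont (b : ℕ → ℂ) (X : ℕ) : Continuous (D b X) :=
  continuous_iff_continuousAt.2 fun t => (D_hasDerivAt b X t).continuousAt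

/-- the antiderivative of the square of the derivative -/
noncomputable def Ph (b : ℕ → ℂ) (X : ℕ) (t : ℝ) : ℝ := ∫ s in (0:ℝ)..t, ‖D (db b) X s‖ ^ 2

lemma phi_cont (b : ℕ → ℂ) (X : ℕ) : Continuous (fun s => ‖D b X s‖ ^ 2) :=
  ((D_cont b X).norm).pow 2

lemma Ph_cont (b : ℕ → ℂ) (X : ℕ) : Continuous (Ph b X) :=
  intervalIntegral.continuous_primitive (fun a c => (phi_cont (db b) X).intervalIntegrable a c) 0

lemma Ph_sub (b : ℕ → ℂ) (X : ℕ) (s t : ℝ) :
    Ph b X t - Ph b X s = ∫ v in s..t, ‖D (db b) X v‖ ^ 2 := by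
  unfold Ph
  rw [intervalIntegral.integral_interval_sub_left ((phi_cont (db b) X).intervalIntegrable _ _)
    ((phi_cont (db b) X).intervalIntegrable _ _)]

lemma Ph_mono (b : ℕ → ℂ) (X : ℕ) : Monotone (Ph b X) := by
  intro s t hst
  have h := Ph_sub b X s t
  have h1 : 0 ≤ ∫ v in s..t, ‖D (db b) X v‖ ^ 2 :=
    intervalIntegral.integral_nonneg hst fun v _ => by positivity
  linarith

/-- the variation in a short interval -/
lemma var_le (b : ℕ → ℂ) (X : ℕ) (H : ℝ) (hH : 0 < H) (t u : ℝ) (hu : |u| ≤ H) :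
    ‖D b X (t + u) - D b X t‖ ≤ H * (Ph b X (t + H) - Ph b X (t - H)) + 1 / 2 := by
  have hder : ∀ s : ℝ, HasDerivAt (fun s => D b X (t + s)) (D (db b) X (t + s)) s := fun s =>
    HasDerivAt.comp_const_add t s (D_hasDerivAt b X (t + s))
  have hc : Continuous (fun s => D (db b) X (t + s)) := (D_cont (db b) X).comp (continuous_const.add continuous_id)
  have h1 : ∫ v in (0:ℝ)..u, D (db b) X (t + v) = D b X (t + u) - D b X t := by
    have := intervalIntegral.integral_eq_sub_of_hasDerivAt (a := 0) (b := u) (fun s _ => hder s)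
      (hc.intervalIntegrable _ _)
    simpa using this
  rw [← h1]
  refine (intervalIntegral.norm_integral_le_abs_integral_norm).trans ?_
  have hsub : Set.uIoc 0 u ⊆ Set.uIoc (-H) H := by
    intro v hv
    rw [Set.mem_uIoc] at hv
    rw [Set.uIoc_of_le (by linarith)]
    have := abs_le.1 hu
    rcases hv with hv | hv
    · exact ⟨by linarith [hv.1], by linarith [hv.2, this.2]⟩
    · exact ⟨by linarith [hv.1, this.1], by linarith [hv.2]⟩
  have h2 := intervalIntegral.abs_integral_mono_interval (μ := volume)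
    (f := fun v => ‖D (db b) X (t + v)‖) hsub
    (Filter.Eventually.of_forall fun v => norm_nonneg _) (hc.norm.intervalIntegrable _ _)
  refine h2.trans ?_
  have h3 : 0 ≤ ∫ v in (-H)..H, ‖D (db b) X (t + v)‖ :=
    intervalIntegral.integral_nonneg (by linarith) fun v _ => norm_nonneg _
  rw [abs_of_nonneg h3]
  have h4 : ∫ v in (-H)..H, ‖D (db b) X (t + v)‖ ≤
      ∫ v in (-H)..H, (H * ‖D (db b) X (t + v)‖ ^ 2 + 1 / (4 * H)) := by
    refine intervalIntegral.integral_mono_on (by linarith) (hc.norm.intervalIntegrable _ _)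
      (((continuous_const.mul (hc.norm.pow 2)).add continuous_const).intervalIntegrable _ _) ?_
    intro v _
    set z := ‖D (db b) X (t + v)‖
    have h5 : H * z ^ 2 + 1 / (4 * H) - z = (2 * H * z - 1) ^ 2 / (4 * H) := by
      field_simp
      ring
    have h6 : 0 ≤ (2 * H * z - 1) ^ 2 / (4 * H) := by positivity
    linarith
  refine h4.trans (le_of_eq ?_)
  have i1 : IntervalIntegrable (fun v => H * ‖D (db b) X (t + v)‖ ^ 2) volume (-H) H :=
    (continuous_const.mul (hc.norm.pow 2)).intervalIntegrable _ _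
  have i2 : IntervalIntegrable (fun _ : ℝ => 1 / (4 * H)) volume (-H) H :=
    continuous_const.intervalIntegrable _ _
  rw [intervalIntegral.integral_add i1 i2, intervalIntegral.integral_const_mul,
    intervalIntegral.integral_const, Ph_sub]
  have h7 : ∫ v in (-H)..H, ‖D (db b) X (t + v)‖ ^ 2 = ∫ v in (t - H)..(t + H), ‖D (db b) X v‖ ^ 2 := by
    have := intervalIntegral.integral_comp_add_left (fun v => ‖D (db b) X v‖ ^ 2) t (a := -H) (b := H)
    simpa [sub_eq_add_neg] using this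
  rw [h7, smul_eq_mul]
  congr 1
  field_simp
  ring

/-- the mean of the variation -/
lemma mean_var (b : ℕ → ℂ) (X : ℕ) (H : ℝ) (hH : 0 < H) (T : ℝ) (hT : 0 ≤ T) :
    ∫ t in T..(2 * T), (Ph b X (t + H) - Ph b X (t - H)) ≤
      2 * H * ((T + 2 * H + 8 * X * (1 + Real.log X)) * ∑ n ∈ Finset.Icc 1 X, ‖db b n‖ ^ 2) := by
  have hP := Ph_cont b X
  have hi : ∀ a c : ℝ, IntervalIntegrable (Ph b X) volume a c := fun a c => hP.intervalIntegrable a c
  have c1 : Continuous (fun t => Ph b X (t + H)) := hP.comp (continuous_id.add continuous_const)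
  have c2 : Continuous (fun t => Ph b X (t - H)) := hP.comp (continuous_id.sub continuous_const)
  rw [intervalIntegral.integral_sub (c1.intervalIntegrable _ _) (c2.intervalIntegrable _ _),
    intervalIntegral.integral_comp_add_right (Ph b X) H,
    intervalIntegral.integral_comp_sub_right (Ph b X) H]
  have e1 : (∫ t in (T + H)..(2 * T + H), Ph b X t) - ∫ t in (T - H)..(2 * T - H), Ph b X t =
      (∫ t in (2 * T - H)..(2 * T + H), Ph b X t) - ∫ t in (T - H)..(T + H), Ph b X t := by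
    have f1 := intervalIntegral.integral_add_adjacent_intervals (hi (T - H) (T + H)) (hi (T + H) (2 * T + H))
    have f2 := intervalIntegral.integral_add_adjacent_intervals (hi (T - H) (2 * T - H)) (hi (2 * T - H) (2 * T + H))
    linarith
  rw [e1]
  have u1 : ∫ t in (2 * T - H)..(2 * T + H), Ph b X t ≤ 2 * H * Ph b X (2 * T + H) := by
    have := intervalIntegral.integral_mono_on (a := 2 * T - H) (b := 2 * T + H) (by linarith)
      (hi _ _) (continuous_const.intervalIntegrable _ _)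
      (fun t ht => Ph_mono b X ht.2 : ∀ t ∈ Set.Icc (2 * T - H) (2 * T + H), Ph b X t ≤ Ph b X (2 * T + H))
    refine this.trans (le_of_eq ?_)
    rw [intervalIntegral.integral_const, smul_eq_mul]
    ring
  have u2 : 2 * H * Ph b X (T - H) ≤ ∫ t in (T - H)..(T + H), Ph b X t := by
    have := intervalIntegral.integral_mono_on (a := T - H) (b := T + H) (by linarith)
      (continuous_const.intervalIntegrable _ _) (hi _ _)
      (fun t ht => Ph_mono b X ht.1 : ∀ t ∈ Set.Icc (T - H) (T + H), Ph b X (T - H) ≤ Ph b X t)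
    refine le_trans (le_of_eq ?_) this
    rw [intervalIntegral.integral_const, smul_eq_mul]
    ring
  have u3 : Ph b X (2 * T + H) - Ph b X (T - H) ≤
      (T + 2 * H + 8 * X * (1 + Real.log X)) * ∑ n ∈ Finset.Icc 1 X, ‖db b n‖ ^ 2 := by
    rw [Ph_sub]
    have h := H370.mean_value (db b) X (T - H) (2 * T + H) (by linarith)
    unfold D
    refine h.trans (le_of_eq ?_)
    ring
  nlinarith

/-- the coefficients of `Py` -/
noncomputable def bP (y : ℝ) (n : ℕ) : ℂ := if n.Prime ∧ n ≤ ⌊y⌋₊ then (n : ℂ) ^ (-(1 / 2 : ℂ)) else 0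

lemma norm_cpow_half (n : ℕ) (hn : 1 ≤ n) : ‖(n : ℂ) ^ (-(1 / 2 : ℂ))‖ ^ 2 = 1 / (n : ℝ) := by
  have hn0 : (0:ℝ) < n := by exact_mod_cast hn
  have h1 : ‖(n : ℂ) ^ (-(1 / 2 : ℂ))‖ = (n : ℝ) ^ (-(1 / 2 : ℝ)) := by
    have := Complex.norm_natCast_cpow_of_pos (n := n) hn (-(1 / 2 : ℂ))
    rw [this]
    congr 1
    simp
  rw [h1, ← Real.rpow_natCast, ← Real.rpow_mul hn0.le]
  norm_num
  rw [Real.rpow_neg_one]

lemma Py_eq (y : ℝ) (t : ℝ) (X : ℕ) (hX : ⌊y⌋₊ ≤ X) :
    Pool.Agent.Y745.SW.Py y t = D (bP y) X t := by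
  unfold Pool.Agent.Y745.SW.Py D
  rw [Finset.sum_filter]
  have hsub : Finset.Icc 1 ⌊y⌋₊ ⊆ Finset.Icc 1 X := Finset.Icc_subset_Icc_right hX
  rw [← Finset.sum_subset hsub]
  · refine Finset.sum_congr rfl fun n hn => ?_
    rw [Finset.mem_Icc] at hn
    unfold bP
    by_cases hp : n.Prime
    · rw [if_pos hp, if_pos ⟨hp, hn.2⟩]
      have hn0 : (n : ℂ) ≠ 0 := by
        have : n ≠ 0 := by omega
        exact_mod_cast this
      rw [← Complex.cpow_add _ _ hn0]
      congr 1
      ring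
    · rw [if_neg hp, if_neg (fun h => hp h.1), zero_mul]
  · intro n hn hn2
    rw [Finset.mem_Icc] at hn
    have : ¬ (n.Prime ∧ n ≤ ⌊y⌋₊) := by
      rintro ⟨_, h2⟩
      exact hn2 (Finset.mem_Icc.2 ⟨hn.1, h2⟩)
    unfold bP
    rw [if_neg this, zero_mul]

/-! ### growth -/

lemma tend_log : Tendsto (fun T : ℝ => Real.log T) atTop atTop := Real.tendsto_log_atTop

lemma tend_loglog : Tendsto (fun T : ℝ => Real.log (Real.log T)) atTop atTop :=
  Real.tendsto_log_atTop.comp Real.tendsto_log_atTop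

lemma ev_X : ∀ᶠ T : ℝ in atTop, ∀ X : ℕ, (X : ℝ) ≤ 2 * T ^ (1 / 4 : ℝ) →
    8 * X * (1 + Real.log X) ≤ T / 2 := by
  filter_upwards [eventually_ge_atTop ((64:ℝ) ^ 2)] with T hT X hX
  have hT0 : 0 < T := lt_of_lt_of_le (by norm_num) hT
  rcases Nat.eq_zero_or_pos X with h0 | h0
  · subst h0
    simp
    linarith
  have hX0 : (0:ℝ) < X := by exact_mod_cast h0
  have h1 : Real.log X ≤ X - 1 := Real.log_le_sub_one_of_pos hX0
  have h2 : 8 * X * (1 + Real.log X) ≤ 8 * (X:ℝ) ^ 2 := by nlinarith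
  have h3 : (X:ℝ) ^ 2 ≤ (2 * T ^ (1 / 4 : ℝ)) ^ 2 := pow_le_pow_left₀ hX0.le hX 2
  have h4 : (2 * T ^ (1 / 4 : ℝ)) ^ 2 = 4 * Real.sqrt T := by
    rw [mul_pow, ← Real.rpow_natCast (T ^ (1 / 4 : ℝ)), ← Real.rpow_mul hT0.le, Real.sqrt_eq_rpow]
    norm_num
  have h5 : 64 * Real.sqrt T ≤ T := by
    have h6 : 64 ≤ Real.sqrt T := Real.le_sqrt_of_sq_le hT
    have h7 := Real.mul_self_sqrt hT0.le
    nlinarith
  linarith

lemma xT_le {T : ℝ} (hT : 1 < T) (hl : 4 ≤ Real.log (Real.log T)) :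
    Pool.Agent.Y745.SW.xT T ≤ T ^ (1 / 4 : ℝ) := by
  unfold Pool.Agent.Y745.SW.xT
  rw [Real.rpow_def_of_pos (by linarith)]
  apply Real.exp_le_exp.2
  have hL : 0 < Real.log T := Real.log_pos hT
  rw [div_le_iff₀ (by linarith)]
  nlinarith

lemma sum_db (y : ℝ) (hy : 1 ≤ y) (C : ℝ)
    (hC : ∀ N : ℕ, 1 ≤ N →
      |∑ p ∈ (Finset.Icc 1 N).filter Nat.Prime, Real.log p / p - Real.log N| ≤ C) :
    ∑ n ∈ Finset.Icc 1 ⌊y⌋₊, ‖db (bP y) n‖ ^ 2 ≤ Real.log y * (Real.log y + C) := by
  set X := ⌊y⌋₊ with hX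
  have hX1 : 1 ≤ X := Nat.le_floor (by exact_mod_cast hy)
  have hC0 : 0 ≤ C := (abs_nonneg _).trans (hC 1 le_rfl)
  have hlogX : Real.log X ≤ Real.log y :=
    Real.log_le_log (by exact_mod_cast hX1) (Nat.floor_le (by linarith))
  have hlogX0 : 0 ≤ Real.log X := Real.log_natCast_nonneg X
  have h1 : ∀ n ∈ Finset.Icc 1 X, ‖db (bP y) n‖ ^ 2 ≤
      Real.log y * (if n.Prime then Real.log n / n else 0) := by
    intro n hn
    rw [Finset.mem_Icc] at hn
    have hn0 : (0:ℝ) < n := by exact_mod_cast hn.1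
    unfold db bP
    by_cases hp : n.Prime
    · rw [if_pos ⟨hp, hn.2⟩, if_pos hp, norm_mul, norm_mul, norm_neg, Complex.norm_I, mul_one, mul_pow,
        norm_cpow_half n hn.1, ← Complex.natCast_log, Complex.norm_real, Real.norm_eq_abs, sq_abs]
      have h2 : 0 ≤ Real.log n := Real.log_natCast_nonneg n
      have h3 : Real.log n ≤ Real.log y :=
        (Real.log_le_log hn0 (by exact_mod_cast hn.2)).trans hlogX
      have h4 : 0 ≤ Real.log n / n := by positivity
      calc 1 / (n:ℝ) * Real.log n ^ 2 = Real.log n * (Real.log n / n) := by ring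
        _ ≤ Real.log y * (Real.log n / n) := mul_le_mul_of_nonneg_right h3 h4
    · rw [if_neg (fun h => hp h.1), if_neg hp]
      simp
  refine (Finset.sum_le_sum h1).trans ?_
  rw [← Finset.mul_sum, ← Finset.sum_filter]
  have h5 := (abs_le.1 (hC X hX1)).2
  exact mul_le_mul_of_nonneg_left (by linarith) (hlogX0.trans hlogX)

open Pool.Agent.Y745.SW in
theorem t_BV : P_BV := by
  intro h ε hh hε
  obtain ⟨C, hC⟩ := Pool.Agent.Helper256.KM.mertens_log
  have hC0 : 0 ≤ C := (abs_nonneg _).trans (hC 1 le_rfl)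
  have hq : Tendsto (fun T : ℝ => 8 * h ^ 2 * (1 / Real.log (Real.log T) *
      (1 / Real.log (Real.log T) + C / Real.log T))) atTop (𝓝 (8 * h ^ 2 * (0 * (0 + 0)))) := by
    refine Tendsto.const_mul _ (Tendsto.mul ?_ (Tendsto.add ?_ ?_))
    · exact tendsto_const_nhds.div_atTop tend_loglog
    · exact tendsto_const_nhds.div_atTop tend_loglog
    · exact tendsto_const_nhds.div_atTop tend_log
  have hq' : ∀ᶠ T : ℝ in atTop, 8 * h ^ 2 * (1 / Real.log (Real.log T) *
      (1 / Real.log (Real.log T) + C / Real.log T)) ≤ ε := by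
    have : (8 * h ^ 2 * (0 * (0 + 0)) : ℝ) < ε := by simpa using hε
    filter_upwards [hq.eventually_lt_const this] with T hT
    exact hT.le
  filter_upwards [hq', ev_X, tend_loglog.eventually_ge_atTop 4,
    tend_log.eventually_ge_atTop (max 1 h), eventually_ge_atTop (4:ℝ)] with T hT1 hT2 hl hL hT4
  set L := Real.log T with hLdef
  set l := Real.log L with hldef
  have hL1 : 1 ≤ L := (le_max_left _ _).trans hL
  have hLh : h ≤ L := (le_max_right _ _).trans hL
  have hL0 : 0 < L := by linarith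
  have hl0 : 0 < l := by linarith
  set H := h / L with hH
  have hH0 : 0 < H := by positivity
  have hH1 : H ≤ 1 := (div_le_one hL0).2 hLh
  set x := xT T with hx
  have hlogx : Real.log x = L / l := by
    rw [hx]; unfold xT; rw [Real.log_exp]
  have hx1 : 1 ≤ x := by
    rw [hx]; unfold xT
    exact Real.one_le_exp (by positivity)
  have hx4 : x ≤ T ^ (1 / 4 : ℝ) := xT_le (by linarith) hl
  set X := ⌊x⌋₊ with hX
  have hXx : (X:ℝ) ≤ x := Nat.floor_le (by linarith)
  have h8 : 8 * X * (1 + Real.log X) ≤ T / 2 := by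
    apply hT2
    have : 0 ≤ T ^ (1 / 4 : ℝ) := Real.rpow_nonneg (by linarith) _
    linarith
  set b := bP x with hb
  set P : ℝ → ℝ := fun t => H * (Ph b X (t + H) - Ph b X (t - H)) with hP
  have hPc : Continuous P := continuous_const.mul
    (((Ph_cont b X).comp (continuous_id.add continuous_const)).sub
      ((Ph_cont b X).comp (continuous_id.sub continuous_const)))
  have hP0 : ∀ t, 0 ≤ P t := fun t =>
    mul_nonneg hH0.le (sub_nonneg.2 (Ph_mono b X (by linarith)))
  have hTT : T ≤ 2 * T := by linarith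
  refine ⟨Set.Icc T (2 * T) ∩ {t | 1 / 2 < P t}, ?_, Set.inter_subset_left, ?_, ?_⟩
  · exact measurableSet_Icc.inter (isOpen_lt continuous_const hPc).measurableSet
  · set Bd := Set.Icc T (2 * T) ∩ {t | 1 / 2 < P t} with hBd
    have hm : MeasurableSet Bd :=
      measurableSet_Icc.inter (isOpen_lt continuous_const hPc).measurableSet
    have hint : IntegrableOn P (Set.Icc T (2 * T)) := hPc.continuousOn.integrableOn_Icc
    have hintB : IntegrableOn P Bd := hint.mono_set Set.inter_subset_left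
    have hfinB : volume Bd ≠ ⊤ :=
      ne_top_of_le_ne_top (by rw [Real.volume_Icc]; exact ENNReal.ofReal_ne_top)
        (measure_mono Set.inter_subset_left)
    have h1 : volume.real Bd * (1 / 2) ≤ ∫ t in Bd, P t := by
      have h2 := setIntegral_mono_on (f := fun _ : ℝ => (1 / 2 : ℝ)) (g := P)
        (integrableOn_const hfinB) hintB hm (fun t ht => (le_of_lt ht.2))
      rw [setIntegral_const, smul_eq_mul] at h2
      exact h2
    have h2 : ∫ t in Bd, P t ≤ ∫ t in Set.Icc T (2 * T), P t :=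
      setIntegral_mono_set hint (Filter.Eventually.of_forall hP0)
        (Set.inter_subset_left.eventuallyLE)
    have h3 : ∫ t in Set.Icc T (2 * T), P t = H * ∫ t in T..(2 * T), (Ph b X (t + H) - Ph b X (t - H)) := by
      rw [integral_Icc_eq_integral_Ioc, ← intervalIntegral.integral_of_le hTT,
        ← intervalIntegral.integral_const_mul]
    have h4 := mean_var b X H hH0 T (by linarith)
    have h5 : ∑ n ∈ Finset.Icc 1 X, ‖db b n‖ ^ 2 ≤ (L / l) * (L / l + C) := by
      have := sum_db x hx1 C hC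
      rw [hlogx] at this
      exact this
    have h6 : 0 ≤ ∑ n ∈ Finset.Icc 1 X, ‖db b n‖ ^ 2 := Finset.sum_nonneg fun n _ => by positivity
    have h7 : T + 2 * H + 8 * X * (1 + Real.log X) ≤ 2 * T := by linarith
    have h9 : (T + 2 * H + 8 * X * (1 + Real.log X)) * ∑ n ∈ Finset.Icc 1 X, ‖db b n‖ ^ 2 ≤
        2 * T * ((L / l) * (L / l + C)) := by
      calc _ ≤ 2 * T * ∑ n ∈ Finset.Icc 1 X, ‖db b n‖ ^ 2 := mul_le_mul_of_nonneg_right h7 h6
        _ ≤ _ := mul_le_mul_of_nonneg_left h5 (by linarith)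
    have h10 : volume.real Bd ≤ 2 * (H * (2 * H * (2 * T * ((L / l) * (L / l + C))))) := by
      have h11 : H * ∫ t in T..(2 * T), (Ph b X (t + H) - Ph b X (t - H)) ≤
          H * (2 * H * (2 * T * ((L / l) * (L / l + C)))) := by
        refine mul_le_mul_of_nonneg_left (h4.trans ?_) hH0.le
        exact mul_le_mul_of_nonneg_left h9 (by positivity)
      linarith
    refine h10.trans ?_
    have e : 2 * (H * (2 * H * (2 * T * ((L / l) * (L / l + C))))) =
        T * (8 * h ^ 2 * (1 / l * (1 / l + C / L))) := by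
      rw [hH]
      field_simp
      ring
    rw [e, mul_comm ε]
    exact mul_le_mul_of_nonneg_left hT1 (by linarith)
  · intro t ht htB u hu
    have h1 : P t ≤ 1 / 2 := by
      by_contra h2
      exact htB ⟨ht, not_le.1 h2⟩
    unfold Px
    rw [Py_eq x (t + u) X le_rfl, Py_eq x t X le_rfl]
    refine (var_le b X H hH0 t u hu).trans ?_
    have : H * (Ph b X (t + H) - Ph b X (t - H)) = P t := rfl
    linarith

open Pool.Agent.Y745.SW in
theorem t_DX : P_DX := by
  intro δ ε hδ hδ4 hε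
  obtain ⟨C, hC⟩ := Pool.Agent.Helper256.KM.mertens_inv
  have hlo : ∀ᶠ s : ℝ in atTop, 2 * C + Real.log (2 * s) ≤ (ε / 2) * s := by
    have h1 := Real.isLittleO_log_id_atTop.bound (show (0:ℝ) < ε / 4 by linarith)
    filter_upwards [h1, eventually_ge_atTop (1:ℝ),
      eventually_ge_atTop ((2 * C + Real.log 2) / (ε / 4))] with s hs hs1 hs2
    have hl : 0 ≤ Real.log s := Real.log_nonneg hs1
    rw [id, Real.norm_of_nonneg hl, Real.norm_of_nonneg (by linarith)] at hs
    rw [Real.log_mul (by norm_num) (by linarith)]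
    have h3 : 2 * C + Real.log 2 ≤ ε / 4 * s := by
      rw [div_le_iff₀ (by linarith)] at hs2
      linarith
    linarith
  have hlL : ∀ᶠ s : ℝ in atTop, Real.log s ≤ (1 / 4) * s := by
    have h1 := Real.isLittleO_log_id_atTop.bound (show (0:ℝ) < 1 / 4 by norm_num)
    filter_upwards [h1, eventually_ge_atTop (1:ℝ)] with s hs hs1
    have hl : 0 ≤ Real.log s := Real.log_nonneg hs1
    rw [id, Real.norm_of_nonneg hl, Real.norm_of_nonneg (by linarith)] at hs
    exact hs
  filter_upwards [tend_loglog.eventually hlo, tend_log.eventually hlL, ev_X,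
    tend_loglog.eventually_ge_atTop (max 4 (2 / δ)),
    tend_log.eventually_ge_atTop (max 4 (2 / δ)), eventually_ge_atTop (16:ℝ)] with
    T hT1 hT2 hT3 hl hL hT16 y hy1 hy2
  set L := Real.log T with hLdef
  set l := Real.log L with hldef
  have hT0 : 0 < T := by linarith
  have hL4 : 4 ≤ L := (le_max_left _ _).trans hL
  have hLd : 2 / δ ≤ L := (le_max_right _ _).trans hL
  have hl4 : 4 ≤ l := (le_max_left _ _).trans hl
  have hld : 2 / δ ≤ l := (le_max_right _ _).trans hl
  have hL0 : 0 < L := by linarith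
  have hl0 : 0 < l := by linarith
  set x := xT T with hx
  have hlogx : Real.log x = L / l := by
    rw [hx]; unfold xT; rw [Real.log_exp]
  have hxpos : 0 < x := by
    rw [hx]; unfold xT
    exact Real.exp_pos _
  have hlogx4 : 4 ≤ Real.log x := by
    rw [hlogx, le_div_iff₀ hl0]
    linarith
  have hx4 : 4 ≤ x := by
    have := Real.log_le_sub_one_of_pos hxpos
    linarith
  -- x ≤ y
  have hTd : 0 < T ^ δ := Real.rpow_pos_of_pos hT0 _
  have hxy : x ≤ y := by
    refine le_trans ?_ hy1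
    rw [← Real.log_le_log_iff hxpos (by positivity), hlogx,
      Real.log_div hTd.ne' (by norm_num), Real.log_rpow hT0]
    have h1 : L / l ≤ δ * L / 2 := by
      rw [div_le_iff₀ hl0]
      rw [div_le_iff₀ hδ] at hld
      nlinarith
    have h2 : Real.log 2 ≤ 1 := by
      have := Real.log_two_lt_d9
      linarith
    have h3 : 1 ≤ δ * L / 2 := by
      rw [div_le_iff₀ hδ] at hLd
      linarith
    linarith
  have hy0 : 0 < y := hxpos.trans_le hxy
  set X := ⌊y⌋₊ with hX
  set N := ⌊x⌋₊ with hN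
  have hNX : N ≤ X := Nat.floor_le_floor hxy
  have hN3 : 3 ≤ N := by
    have : 4 ≤ N := Nat.le_floor (by exact_mod_cast hx4)
    omega
  have hX3 : 3 ≤ X := hN3.trans hNX
  have hXy : (X:ℝ) ≤ y := Nat.floor_le hy0.le
  have hT14 : T ^ δ ≤ T ^ (1 / 4 : ℝ) :=
    Real.rpow_le_rpow_of_exponent_le (by linarith) hδ4
  have hX4 : (X:ℝ) ≤ 2 * T ^ (1 / 4 : ℝ) := by linarith
  have h8 : 8 * X * (1 + Real.log X) ≤ T / 2 := hT3 X hX4
  have hXT : (X:ℝ) ≤ T := by
    refine hX4.trans ?_
    have h1 : T ^ (1 / 4 : ℝ) ≤ Real.sqrt T := by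
      rw [Real.sqrt_eq_rpow]
      exact Real.rpow_le_rpow_of_exponent_le (by linarith) (by norm_num)
    have h2 : 4 ≤ Real.sqrt T := Real.le_sqrt_of_sq_le (by linarith)
    have h3 := Real.mul_self_sqrt hT0.le
    nlinarith
  -- the difference
  set bd : ℕ → ℂ := fun n => bP y n - bP x n with hbd
  have hdiff : ∀ t : ℝ, Py y t - Px T t = D bd X t := by
    intro t
    unfold Px
    rw [Py_eq y t X le_rfl, Py_eq x t X hNX]
    unfold D
    rw [← Finset.sum_sub_distrib]
    refine Finset.sum_congr rfl fun n _ => ?_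
    rw [hbd]
    ring
  have hint : ∫ t in T..(2 * T), ‖Py y t - Px T t‖ ^ 2 ≤
      (T + 8 * X * (1 + Real.log X)) * ∑ n ∈ Finset.Icc 1 X, ‖bd n‖ ^ 2 := by
    have h1 := H370.mean_value bd X T (2 * T) (by linarith)
    have h2 : ∀ t : ℝ, ‖Py y t - Px T t‖ ^ 2 =
        ‖∑ n ∈ Finset.Icc 1 X, bd n * (n : ℂ) ^ (-(t : ℂ) * I)‖ ^ 2 := by
      intro t
      rw [hdiff t]
      rfl
    simp only [h2]
    refine h1.trans (le_of_eq ?_)
    ring
  have hsum : ∑ n ∈ Finset.Icc 1 X, ‖bd n‖ ^ 2 =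
      ∑ p ∈ (Finset.Icc 1 X).filter Nat.Prime, (1:ℝ) / p -
        ∑ p ∈ (Finset.Icc 1 N).filter Nat.Prime, (1:ℝ) / p := by
    have e1 : ∑ p ∈ (Finset.Icc 1 N).filter Nat.Prime, (1:ℝ) / p =
        ∑ n ∈ Finset.Icc 1 X, if n.Prime ∧ n ≤ N then (1:ℝ) / n else 0 := by
      rw [← Finset.sum_filter]
      refine Finset.sum_congr ?_ fun _ _ => rfl
      ext n
      simp only [Finset.mem_filter, Finset.mem_Icc]
      constructor
      · rintro ⟨⟨h1, h2⟩, h3⟩
        exact ⟨⟨h1, h2.trans hNX⟩, h3, h2⟩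
      · rintro ⟨⟨h1, _⟩, h3, h2⟩
        exact ⟨⟨h1, h2⟩, h3⟩
    rw [e1, Finset.sum_filter, ← Finset.sum_sub_distrib]
    refine Finset.sum_congr rfl fun n hn => ?_
    rw [Finset.mem_Icc] at hn
    rw [hbd]
    simp only [bP]
    by_cases hp : n.Prime
    · by_cases hnN : n ≤ N
      · rw [if_pos ⟨hp, hn.2⟩, if_pos ⟨hp, hnN⟩, if_pos hp, if_pos ⟨hp, hnN⟩]
        simp
      · rw [if_pos ⟨hp, hn.2⟩, if_neg (fun h => hnN h.2), if_pos hp, if_neg (fun h => hnN h.2),
          sub_zero, sub_zero, norm_cpow_half n hn.1]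
    · rw [if_neg (fun h => hp h.1), if_neg (fun h => hp h.1), if_neg hp, if_neg (fun h => hp h.1)]
      simp
  have hS : ∑ n ∈ Finset.Icc 1 X, ‖bd n‖ ^ 2 ≤ 2 * C + Real.log (2 * l) := by
    rw [hsum]
    have h1 := (abs_le.1 (hC X hX3)).2
    have h2 := (abs_le.1 (hC N hN3)).1
    have hX0 : (0:ℝ) < X := by
      have : 0 < X := by omega
      exact_mod_cast this
    have hN0 : (0:ℝ) < N := by
      have : 0 < N := by omega
      exact_mod_cast this
    have hlogX : 0 < Real.log X := Real.log_pos (by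
      have : 1 < X := by omega
      exact_mod_cast this)
    have h3 : Real.log (Real.log X) ≤ l :=
      Real.log_le_log hlogX (Real.log_le_log hX0 hXT)
    have h4 : L / (2 * l) ≤ Real.log N := by
      have h5 : Real.sqrt x ≤ N := by
        have h6 : x - 1 ≤ N := by
          have := Nat.lt_floor_add_one x
          linarith
        have h7 : 2 ≤ Real.sqrt x := Real.le_sqrt_of_sq_le (by linarith)
        have h8 := Real.mul_self_sqrt hxpos.le
        nlinarith
      have h6 : Real.log (Real.sqrt x) ≤ Real.log N :=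
        Real.log_le_log (Real.sqrt_pos.2 hxpos) h5
      rw [Real.log_sqrt hxpos.le, hlogx] at h6
      refine le_trans (le_of_eq ?_) h6
      field_simp
    have h5 : l - Real.log (2 * l) ≤ Real.log (Real.log N) := by
      have h6 : Real.log (L / (2 * l)) = l - Real.log (2 * l) := by
        rw [Real.log_div hL0.ne' (by positivity)]
      rw [← h6]
      exact Real.log_le_log (by positivity) h4
    linarith
  have hS0 : 0 ≤ ∑ n ∈ Finset.Icc 1 X, ‖bd n‖ ^ 2 := Finset.sum_nonneg fun n _ => by positivity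
  refine hint.trans ?_
  have h9 : ∑ n ∈ Finset.Icc 1 X, ‖bd n‖ ^ 2 ≤ ε / 2 * l := hS.trans hT1
  calc (T + 8 * X * (1 + Real.log X)) * ∑ n ∈ Finset.Icc 1 X, ‖bd n‖ ^ 2 ≤
      (2 * T) * ∑ n ∈ Finset.Icc 1 X, ‖bd n‖ ^ 2 :=
        mul_le_mul_of_nonneg_right (by linarith) hS0
    _ ≤ (2 * T) * (ε / 2 * l) := mul_le_mul_of_nonneg_left h9 (by linarith)
    _ = ε * (T * l) := by ring

end Pool.Agent.Y895.SW
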